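import Mathlib

/-!
# MP_da5e02_co : detour position number versus detour diameter

A connected graph `G` on 11 vertices with a Hamiltonian path (so its detour diameter is 10)
that has a detour position set with three vertices: `dp(G) ≥ 3 > 2 = n - D + 1`.
-/

namespace Pool.Agent.Results.MP_da5e02_co.TraceableCounterexample

open SimpleGraph

/-- The detour distance: the largest length of a `u,v`-path. -/
noncomputable def detourDist {n : ℕ} (G : SimpleGraph (Fin n)) (u v : Fin n) : ℕ :=
  sSup {k : ℕ | ∃ p : G.Walk u v, p.IsPath ∧ p.length = k}

/-- A detour: a longest path between its ends. -/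
def IsDetour {n : ℕ} {G : SimpleGraph (Fin n)} {u v : Fin n} (p : G.Walk u v) : Prop :=
  p.IsPath ∧ p.length = detourDist G u v

/-- Detour position sets: no detour between two members contains a third member. -/
def IsDetourPositionSet {n : ℕ} (G : SimpleGraph (Fin n)) (S : Finset (Fin n)) : Prop :=
  ∀ u ∈ S, ∀ v ∈ S, u ≠ v → ∀ p : G.Walk u v, IsDetour p →
    ∀ w ∈ S, w ≠ u → w ≠ v → w ∉ p.support

/-- The detour position number. -/
noncomputable def detourPositionNumber {n : ℕ} (G : SimpleGraph (Fin n)) : ℕ :=
  sSup {k : ℕ | ∃ S : Finset (Fin n), IsDetourPositionSet G S ∧ S.card = k}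

/-- The detour diameter: the largest length of a path of `G`. -/
noncomputable def detourDiameter {n : ℕ} (G : SimpleGraph (Fin n)) : ℕ :=
  sSup {k : ℕ | ∃ (u v : Fin n) (p : G.Walk u v), p.IsPath ∧ p.length = k}

/-- Adjacency lists of the example. -/
def nb : Fin 11 → List (Fin 11) :=
  ![[1, 5, 10], [0, 2, 7], [1, 3], [2, 4, 9], [3, 5], [0, 4, 6], [5, 7], [1, 6, 8], [7, 9],
    [3, 8], [0]]

/-- The example: 11 vertices, 13 edges. -/
def G : SimpleGraph (Fin 11) where
  Adj a b := b ∈ nb a
  symm := ⟨by decide⟩
  loopless := ⟨by decide⟩

instance : DecidableRel G.Adj := fun a b => inferInstanceAs (Decidable (b ∈ nb a))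

/-- Search through all simple paths that extend a given one and end in `t`: every one that
contains `x` has at most `L` vertices. -/
def dfs (t x : Fin 11) (L : ℕ) : ℕ → List (Fin 11) → Fin 11 → Bool
  | 0, _, _ => false
  | f + 1, vis, c =>
    if c = t then (decide (x ∉ vis) || decide (vis.length ≤ L))
    else (nb c).all (fun d => decide (d ∈ vis) || dfs t x L f (d :: vis) d)

lemma dfs_sound (t x : Fin 11) (L : ℕ) {c : Fin 11} (p : G.Walk c t) :
    ∀ (f : ℕ) (vis : List (Fin 11)), p.IsPath → (∀ w ∈ p.support.tail, w ∉ vis) → c ∈ vis →
      dfs t x L f vis c = true → (x ∈ vis ∨ x ∈ p.support) → vis.length + p.length ≤ L := by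
  induction p with
  | nil =>
    rename_i t
    intro f vis _ _ hc hd hx
    cases f with
    | zero => simp [dfs] at hd
    | succ f =>
      have hx' : x ∈ vis := by
        rcases hx with h | h
        · exact h
        · simp only [Walk.support_nil, List.mem_singleton] at h
          exact h ▸ hc
      simp only [dfs, if_true, Bool.or_eq_true, decide_eq_true_eq] at hd
      rcases hd with h | h
      · exact absurd hx' h
      · simpa using h
  | cons h q ih =>
    rename_i a b t
    intro f vis hp hs hc hd hx
    cases f with
    | zero => simp [dfs] at hd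
    | succ f =>
      rw [Walk.cons_isPath_iff] at hp
      have hne : a ≠ t := by
        rintro rfl
        exact hp.2 q.end_mem_support
      simp only [dfs, if_neg hne, List.all_eq_true, Bool.or_eq_true, decide_eq_true_eq] at hd
      have hb : b ∉ vis := hs b (by simp)
      have h1 : dfs t x L f (b :: vis) b = true := by
        rcases hd b h with h2 | h2
        · exact absurd h2 hb
        · exact h2
      have h2 := ih f (b :: vis) hp.1 ?_ (by simp) h1 ?_
      · simp only [List.length_cons, Walk.length_cons] at h2 ⊢
        omega
      · intro w hw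
        have hw' : w ∈ q.support := List.mem_of_mem_tail hw
        have h3 : w ∉ vis := hs w (by simpa using hw')
        have h4 : w ≠ b := by
          rintro rfl
          have := hp.1.support_nodup
          rw [← q.cons_tail_support] at this
          exact (List.nodup_cons.mp this).1 hw
        simp [h3, h4]
      · rcases hx with h3 | h3
        · left; simp [h3]
        · simp only [Walk.support_cons, List.mem_cons] at h3
          rcases h3 with h3 | h3
          · left; rw [h3]; simp [hc]
          · right; exact h3

lemma bdd (u v : Fin 11) : BddAbove {k : ℕ | ∃ p : G.Walk u v, p.IsPath ∧ p.length = k} := by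
  refine ⟨11, ?_⟩
  rintro k ⟨p, hp, rfl⟩
  have := hp.length_lt
  simp only [Fintype.card_fin] at this
  omega

/-- If there is a `u,v`-path of length at least `L` and all `u,v`-paths through `x` have fewer
than `L` edges, then no `u,v`-detour contains `x`. -/
lemma avoid (u v x : Fin 11) (L : ℕ) (q : G.Walk u v) (hq : q.IsPath) (hL : L ≤ q.length)
    (hd : dfs v x L 12 [u] u = true) (p : G.Walk u v) (hp : IsDetour p) : x ∉ p.support := by
  intro hx
  have h1 : L ≤ p.length := by
    rw [hp.2]
    exact hL.trans (le_csSup (bdd u v) ⟨q, hq, rfl⟩)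
  have h2 := dfs_sound v x L p 12 [u] hp.1 ?_ (by simp) hd (Or.inr hx)
  · simp only [List.length_singleton] at h2
    omega
  · intro w hw
    have := hp.1.support_nodup
    rw [← p.cons_tail_support] at this
    have h3 := (List.nodup_cons.mp this).1
    simp only [List.mem_singleton]
    rintro rfl
    exact h3 hw

/-- Build a walk from a list of vertices. -/
def w26 : G.Walk 2 6 :=
  .cons (v := 1) (by decide) <| .cons (v := 0) (by decide) <| .cons (v := 5) (by decide) <|
  .cons (v := 4) (by decide) <| .cons (v := 3) (by decide) <| .cons (v := 9) (by decide) <|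
  .cons (v := 8) (by decide) <| .cons (v := 7) (by decide) <| .cons (v := 6) (by decide) .nil

def w2x : G.Walk 2 10 :=
  .cons (v := 1) (by decide) <| .cons (v := 7) (by decide) <| .cons (v := 8) (by decide) <|
  .cons (v := 9) (by decide) <| .cons (v := 3) (by decide) <| .cons (v := 4) (by decide) <|
  .cons (v := 5) (by decide) <| .cons (v := 0) (by decide) <| .cons (v := 10) (by decide) .nil

def w6x : G.Walk 6 10 :=
  .cons (v := 5) (by decide) <| .cons (v := 4) (by decide) <| .cons (v := 3) (by decide) <|
  .cons (v := 9) (by decide) <| .cons (v := 8) (by decide) <| .cons (v := 7) (by decide) <|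
  .cons (v := 1) (by decide) <| .cons (v := 0) (by decide) <| .cons (v := 10) (by decide) .nil

/-- A Hamiltonian path. -/
def ham : G.Walk 10 4 :=
  .cons (v := 0) (by decide) <| .cons (v := 1) (by decide) <| .cons (v := 2) (by decide) <|
  .cons (v := 3) (by decide) <| .cons (v := 9) (by decide) <| .cons (v := 8) (by decide) <|
  .cons (v := 7) (by decide) <| .cons (v := 6) (by decide) <| .cons (v := 5) (by decide) <|
  .cons (v := 4) (by decide) .nil

lemma w26_path : w26.IsPath := by rw [Walk.isPath_def]; decide
lemma w2x_path : w2x.IsPath := by rw [Walk.isPath_def]; decide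
lemma w6x_path : w6x.IsPath := by rw [Walk.isPath_def]; decide
lemma ham_path : ham.IsPath := by rw [Walk.isPath_def]; decide

lemma isDPS : IsDetourPositionSet G {2, 6, 10} := by
  intro u hu v hv huv p hp w hw hwu hwv
  simp only [Finset.mem_insert, Finset.mem_singleton] at hu hv hw
  rcases hu with rfl | rfl | rfl <;> rcases hv with rfl | rfl | rfl <;>
    rcases hw with rfl | rfl | rfl <;>
    first
    | exact absurd rfl huv
    | exact absurd rfl hwu
    | exact absurd rfl hwv
    | exact avoid 2 6 10 9 w26 w26_path (by decide) (by decide) p hp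
    | exact avoid 2 10 6 9 w2x w2x_path (by decide) (by decide) p hp
    | exact avoid 6 10 2 9 w6x w6x_path (by decide) (by decide) p hp
    | exact avoid 6 2 10 9 w26.reverse w26_path.reverse (by decide) (by decide) p hp
    | exact avoid 10 2 6 9 w2x.reverse w2x_path.reverse (by decide) (by decide) p hp
    | exact avoid 10 6 2 9 w6x.reverse w6x_path.reverse (by decide) (by decide) p hp

lemma connected : G.Connected := by
  rw [SimpleGraph.connected_iff]
  refine ⟨?_, ⟨0⟩⟩
  have h : ∀ v : Fin 11, G.Reachable 10 v := by
    intro v
    have hv : v ∈ ham.support := by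
      revert v; decide
    exact ⟨ham.takeUntil v hv⟩
  intro u v
  exact (h u).symm.trans (h v)

/-- Some connected graph on 11 vertices has detour diameter 10 and detour position number at
least 3. -/
theorem example_graph :
    G.Connected ∧ detourDiameter G = 10 ∧ 3 ≤ detourPositionNumber G := by
  refine ⟨connected, ?_, ?_⟩
  · apply le_antisymm
    · apply csSup_le
      · exact ⟨10, 10, 4, ham, ham_path, by decide⟩
      rintro k ⟨u, v, p, hp, rfl⟩
      have := hp.length_lt
      simp only [Fintype.card_fin] at this
      omega
    · apply le_csSup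
      · refine ⟨11, ?_⟩
        rintro k ⟨u, v, p, hp, rfl⟩
        have := hp.length_lt
        simp only [Fintype.card_fin] at this
        omega
      · exact ⟨10, 4, ham, ham_path, by decide⟩
  · apply le_csSup
    · refine ⟨11, ?_⟩
      rintro k ⟨S, _, rfl⟩
      simpa using Finset.card_le_univ S
    · exact ⟨{2, 6, 10}, isDPS, by decide⟩

/-- The bound `dp(G) ≤ n - D + 1` fails for a connected graph. -/
theorem result : ¬ ∀ (n : ℕ) (G : SimpleGraph (Fin n)), G.Connected →
    (detourPositionNumber G : ℤ) ≤ (n : ℤ) - detourDiameter G + 1 := by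
  intro h
  have h1 := h 11 G connected
  obtain ⟨_, h2, h3⟩ := example_graph
  rw [h2] at h1
  push_cast at h1
  omega

end Pool.Agent.Results.MP_da5e02_co.TraceableCounterexample
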